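import Mathlib

namespace Pool.Agent.H.MP_c1fe20_lc

open Set MeasureTheory

abbrev Z := ℕ → ℕ
abbrev Y := ℕ → Bool

instance polY : PolishSpace Y := ⟨⟩

/-- free monoid on Z, coded as a closed subset of ℕ × (ℕ → Z) -/
def M : Type := {p : ℕ × (ℕ → Z) // ∀ i, p.1 ≤ i → p.2 i = 0}

def app (n : ℕ) (f g : ℕ → Z) : ℕ → Z := fun i => if i < n then f i else g (i - n)

instance : TopologicalSpace M := inferInstanceAs
  (TopologicalSpace {p : ℕ × (ℕ → Z) // ∀ i, p.1 ≤ i → p.2 i = 0})

theorem closedM : IsClosed {p : ℕ × (ℕ → Z) | ∀ i, p.1 ≤ i → p.2 i = 0} := by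
  have : {p : ℕ × (ℕ → Z) | ∀ i, p.1 ≤ i → p.2 i = 0} =
      ⋂ i, ({p : ℕ × (ℕ → Z) | i < p.1} ∪ {p | p.2 i = 0}) := by
    ext p
    simp only [mem_ofPred_eq, mem_iInter, mem_union]
    refine forall_congr' fun i => ?_
    constructor
    · intro h
      by_cases hi : p.1 ≤ i
      · exact Or.inr (h hi)
      · exact Or.inl (by omega)
    · rintro (h | h) hi
      · omega
      · exact h
  rw [this]
  refine isClosed_iInter fun i => IsClosed.union ?_ ?_
  · exact (isClosed_discrete {n : ℕ | i < n}).preimage continuous_fst
  · exact isClosed_eq ((continuous_apply i).comp continuous_snd) continuous_const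

instance : PolishSpace M := closedM.polishSpace

def mul (p q : M) : M := ⟨(p.1.1 + q.1.1, app p.1.1 p.1.2 q.1.2), by
  intro i hi
  have : ¬ i < p.1.1 := by simp only at hi; omega
  simp only [app, this, if_false]
  exact q.2 _ (by simp only at hi; omega)⟩

def one : M := ⟨(0, fun _ => 0), fun _ _ => rfl⟩

instance : Monoid M where
  mul := mul
  one := one
  mul_assoc p q r := by
    apply Subtype.ext
    change (mul (mul p q) r).1 = (mul p (mul q r)).1
    simp only [mul]
    refine Prod.ext (by simp only; omega) ?_
    funext i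
    simp only [app]
    by_cases h1 : i < p.1.1
    · have : i < p.1.1 + q.1.1 := by omega
      simp [h1, this]
    · by_cases h2 : i < p.1.1 + q.1.1
      · have : i - p.1.1 < q.1.1 := by omega
        simp [h1, h2, this]
      · have : ¬ i - p.1.1 < q.1.1 := by omega
        simp only [h1, h2, this, if_false]
        rw [Nat.sub_add_eq]
  one_mul p := by
    apply Subtype.ext
    change (mul one p).1 = p.1
    simp only [mul, one]
    refine Prod.ext (by simp) ?_
    funext i
    simp [app]
  mul_one p := by
    apply Subtype.ext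
    change (mul p one).1 = p.1
    simp only [mul, one]
    refine Prod.ext (by simp) ?_
    funext i
    simp only [app]
    by_cases h : i < p.1.1
    · simp [h]
    · simp only [h, if_false]
      exact (p.2 i (by omega)).symm

theorem cont_app : Continuous (fun x : ℕ × ((ℕ → Z) × (ℕ → Z)) => app x.1 x.2.1 x.2.2) := by
  rw [continuous_prod_of_discrete_left]
  intro n
  refine continuous_pi fun i => ?_
  simp only [app]
  by_cases h : i < n
  · simp only [h, if_true]
    exact (continuous_apply i).comp continuous_fst
  · simp only [h, if_false]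
    exact (continuous_apply _).comp continuous_snd

theorem cont_val : Continuous (fun p : M => p.1) := continuous_subtype_val

instance : ContinuousMul M where
  continuous_mul := by
    change Continuous (fun x : M × M => mul x.1 x.2)
    refine Continuous.subtype_mk ?_ _
    have h1 : Continuous (fun x : M × M => x.1.1) := cont_val.comp continuous_fst
    have h2 : Continuous (fun x : M × M => x.2.1) := cont_val.comp continuous_snd
    refine Continuous.prodMk (h1.fst.add h2.fst) ?_
    exact cont_app.comp (h1.fst.prodMk (h1.snd.prodMk h2.snd))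

section act
variable (b : Z × Y → Y)

def act : ℕ → (ℕ → Z) → Y → Y
  | 0, _, u => u
  | n + 1, f, u => b (f 0, act n (fun i => f (i + 1)) u)

theorem act_app (n m : ℕ) (f g : ℕ → Z) (u : Y) :
    act b (n + m) (app n f g) u = act b n f (act b m g u) := by
  induction n generalizing f with
  | zero =>
    have : app 0 f g = g := by funext i; simp [app]
    simp [this, act]
  | succ n ih =>
    have e : n + 1 + m = (n + m) + 1 := by omega
    rw [e]
    simp only [act]
    have h0 : app (n + 1) f g 0 = f 0 := by simp [app]
    have h1 : (fun i => app (n + 1) f g (i + 1)) = app n (fun i => f (i + 1)) g := by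
      funext i
      simp only [app]
      by_cases h : i < n
      · have : i + 1 < n + 1 := by omega
        simp [h, this]
      · have : ¬ i + 1 < n + 1 := by omega
        simp only [h, this, if_false]
        congr 1
        omega
    rw [h0, h1, ih]

theorem cont_act (hb : Continuous b) (n : ℕ) :
    Continuous (fun x : (ℕ → Z) × Y => act b n x.1 x.2) := by
  induction n with
  | zero => exact continuous_snd
  | succ n ih =>
    simp only [act]
    refine hb.comp (Continuous.prodMk ((continuous_apply 0).comp continuous_fst) ?_)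
    have : Continuous (fun x : (ℕ → Z) × Y => ((fun i => x.1 (i + 1), x.2) : (ℕ → Z) × Y)) :=
      Continuous.prodMk (continuous_pi fun i => (continuous_apply (i + 1)).comp continuous_fst)
        continuous_snd
    exact ih.comp this

def a (x : M × Y) : Y := act b x.1.1.1 x.1.1.2 x.2

theorem cont_a (hb : Continuous b) : Continuous (a b) := by
  have h : Continuous (fun x : ℕ × ((ℕ → Z) × Y) => act b x.1 x.2.1 x.2.2) := by
    rw [continuous_prod_of_discrete_left]
    intro n
    exact cont_act b hb n
  have h1 : Continuous (fun x : M × Y => x.1.1) := cont_val.comp continuous_fst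
  exact h.comp (h1.fst.prodMk (h1.snd.prodMk continuous_snd))

theorem a_one (u : Y) : a b (1, u) = u := rfl

theorem a_mul (g h : M) (u : Y) : a b (h, a b (g, u)) = a b (h * g, u) :=
  (act_app b h.1.1 g.1.1 h.1.2 g.1.2 u).symm

theorem reach_iff (S : Y → Y → Prop) (hr : ∀ u, S u u) (ht : ∀ u v w, S u v → S v w → S u w)
    (h1 : ∀ z u, S u (b (z, u))) (h2 : ∀ u v, S u v → ∃ z, b (z, u) = v) (u v : Y) :
    (∃ g : M, a b (g, u) = v) ↔ S u v := by
  constructor
  · rintro ⟨g, rfl⟩
    have : ∀ n f, S u (act b n f u) := by
      intro n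
      induction n with
      | zero => intro f; exact hr u
      | succ n ih => intro f; exact ht _ _ _ (ih _) (h1 _ _)
    exact this _ _
  · intro h
    obtain ⟨z, hz⟩ := h2 u v h
    refine ⟨⟨(1, fun i => if i = 0 then z else 0), ?_⟩, ?_⟩
    · intro i hi
      have : i ≠ 0 := by simp only at hi; omega
      simp [this]
    · simpa [a, act] using hz

end act

noncomputable def step (F : Z → Y × Y) (x : Z × Y) : Y :=
  fun k => @ite _ (∀ i ∈ Finset.range (k + 1), (F x.1).1 i = x.2 i) (Classical.propDecidable _)
    ((F x.1).2 k) (x.2 k)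

theorem cont_step (F : Z → Y × Y) (hF : Continuous F) : Continuous (step F) := by
  refine continuous_pi fun k => ?_
  have hc : IsClopen {x : Z × Y | ∀ i ∈ Finset.range (k + 1), (F x.1).1 i = x.2 i} := by
    have : {x : Z × Y | ∀ i ∈ Finset.range (k + 1), (F x.1).1 i = x.2 i} =
        ⋂ i ∈ Finset.range (k + 1), {x : Z × Y | (F x.1).1 i = x.2 i} := by
      ext x; simp
    rw [this]
    refine isClopen_biInter_finset fun i _ => ?_
    have h1 : Continuous (fun x : Z × Y => (((F x.1).1 i, x.2 i) : Bool × Bool)) :=
      Continuous.prodMk ((continuous_apply i).comp (hF.comp continuous_fst).fst)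
        ((continuous_apply i).comp continuous_snd)
    exact (isClopen_discrete {p : Bool × Bool | p.1 = p.2}).preimage h1
  unfold step
  refine @Continuous.if _ _ _ _ _ _ _ (fun _ => Classical.propDecidable _) ?_
    ((continuous_apply k).comp (hF.comp continuous_fst).snd)
    ((continuous_apply k).comp continuous_snd)
  intro x hx
  rw [hc.frontier_eq] at hx
  exact absurd hx (notMem_empty x)

theorem step_eq (F : Z → Y × Y) (z : Z) (u : Y) (h : (F z).1 = u) : step F (z, u) = (F z).2 := by
  funext k
  simp [step, h]

theorem step_ne (F : Z → Y × Y) (z : Z) (u : Y) (h : (F z).1 ≠ u) :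
    ∃ K, ∀ k, K ≤ k → step F (z, u) k = u k := by
  obtain ⟨i, hi⟩ := Function.ne_iff.1 h
  refine ⟨i, fun k hk => ?_⟩
  have : ¬ ∀ j ∈ Finset.range (k + 1), (F z).1 j = u j :=
    fun hh => hi (hh i (Finset.mem_range.2 (by omega)))
  simp only [step]
  rw [if_neg this]

open Classical in
noncomputable def val0 (u : Y) : Y :=
  fun i => decide (∃ N, ∀ j, N ≤ j → u (Nat.pair i j) = true)

def sec (c : Y) : Y := fun n => c (Nat.unpair n).1

theorem val0_sec (c : Y) : val0 (sec c) = c := by
  funext i
  have : (∃ N, ∀ j, N ≤ j → sec c (Nat.pair i j) = true) ↔ c i = true := by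
    simp only [sec, Nat.unpair_pair]
    exact ⟨fun ⟨N, hN⟩ => hN N le_rfl, fun h => ⟨0, fun _ _ => h⟩⟩
  classical
  unfold val0
  cases h : c i
  · rw [h] at this
    exact decide_eq_false (fun hh => absurd (this.1 hh) (by simp))
  · exact decide_eq_true (this.2 h)

theorem val0_congr (u v : Y) (K : ℕ) (h : ∀ k, K ≤ k → u k = v k) : val0 u = val0 v := by
  funext i
  simp only [val0]
  congr 1
  apply propext
  constructor
  · rintro ⟨N, hN⟩
    refine ⟨max N K, fun j hj => ?_⟩
    rw [← h _ (le_trans (le_trans (le_max_right _ _) hj) (Nat.right_le_pair i j))]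
    exact hN j (le_trans (le_max_left _ _) hj)
  · rintro ⟨N, hN⟩
    refine ⟨max N K, fun j hj => ?_⟩
    rw [h _ (le_trans (le_trans (le_max_right _ _) hj) (Nat.right_le_pair i j))]
    exact hN j (le_trans (le_max_left _ _) hj)

theorem meas_val0 : Measurable val0 := by
  refine measurable_pi_lambda _ fun i => measurable_to_bool ?_
  have : (fun u : Y => val0 u i) ⁻¹' {true} =
      ⋃ N, ⋂ j, ⋂ (_ : N ≤ j), (fun u : Y => u (Nat.pair i j)) ⁻¹' {true} := by
    ext u
    simp [val0]
  rw [this]
  refine MeasurableSet.iUnion fun N => MeasurableSet.iInter fun j => MeasurableSet.iInter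
    fun _ => ?_
  exact measurable_pi_apply _ (measurableSet_singleton true)

theorem meas_sec : Measurable sec :=
  measurable_pi_lambda _ fun _ => measurable_pi_apply _

theorem main (X : Type*) [TopologicalSpace X] [PolishSpace X] [MeasurableSpace X] [BorelSpace X]
    [Nonempty X] (R : X → X → Prop) (hr : ∀ x, R x x) (ht : ∀ x y z, R x y → R y z → R x z)
    (hR : AnalyticSet {p : X × X | R p.1 p.2}) :
    ∃ (b : Z × Y → Y) (ι : X → Y) (v : Y → X), Continuous b ∧ Measurable ι ∧ Measurable v ∧
      (∀ x, v (ι x) = x) ∧ ∀ u w, (∃ g : M, a b (g, u) = w) ↔ R (v u) (v w) := by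
  obtain ⟨e, he, hinj⟩ := MeasurableSpace.measurable_injection_nat_bool_of_countablySeparated X
  have hemb : MeasurableEmbedding e := he.measurableEmbedding hinj
  let v : Y → X := fun u => hemb.invFun (val0 u)
  have hv : Measurable v := hemb.measurable_invFun.comp meas_val0
  have hS : AnalyticSet {p : Y × Y | R (v p.1) (v p.2)} := by
    rw [AnalyticSet] at hR
    rcases hR with h0 | ⟨G, hG, hGr⟩
    · exfalso
      obtain ⟨x⟩ := ‹Nonempty X›
      have : (x, x) ∈ {p : X × X | R p.1 p.2} := hr x
      rw [h0] at this
      exact this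
    · have hB : MeasurableSet {q : Z × (Y × Y) | G q.1 = (v q.2.1, v q.2.2)} := by
        refine measurableSet_eq_fun (hG.measurable.comp measurable_fst) ?_
        exact (hv.comp measurable_snd.fst).prodMk (hv.comp measurable_snd.snd)
      have : PolishSpace (Z × (Y × Y)) := ⟨⟩
      have := hB.analyticSet.image_of_continuous (f := Prod.snd) continuous_snd
      convert this using 1
      ext p
      simp only [mem_ofPred_eq, mem_image, Prod.exists, exists_eq_right]
      constructor
      · intro h
        have : (v p.1, v p.2) ∈ range G := by rw [hGr]; exact h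
        obtain ⟨z, hz⟩ := this
        exact ⟨z, hz⟩
      · rintro ⟨z, hz⟩
        have : G z ∈ {p : X × X | R p.1 p.2} := by rw [← hGr]; exact ⟨z, rfl⟩
        rw [hz] at this
        exact this
  rw [AnalyticSet] at hS
  rcases hS with h0 | ⟨F, hF, hFr⟩
  · exfalso
    have : ((fun _ => true, fun _ => true) : Y × Y) ∈ {p : Y × Y | R (v p.1) (v p.2)} := hr _
    rw [h0] at this
    exact this
  refine ⟨step F, fun x => sec (e x), v, cont_step F hF, meas_sec.comp he, hv, ?_, ?_⟩
  · intro x
    simp only [v, val0_sec]
    exact hemb.leftInverse_invFun x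
  · refine reach_iff (step F) (fun u w => R (v u) (v w)) (fun u => hr _)
      (fun u w t => ht _ _ _) ?_ ?_
    · intro z u
      by_cases h : (F z).1 = u
      · rw [step_eq F z u h]
        have : F z ∈ {p : Y × Y | R (v p.1) (v p.2)} := by rw [← hFr]; exact ⟨z, rfl⟩
        rw [← h]
        exact this
      · obtain ⟨K, hK⟩ := step_ne F z u h
        have : v (step F (z, u)) = v u := by
          simp only [v]
          rw [val0_congr _ _ K hK]
        rw [this]
        exact hr _
    · intro u w h
      have : (u, w) ∈ range F := by rw [hFr]; exact h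
      obtain ⟨z, hz⟩ := this
      refine ⟨z, ?_⟩
      rw [step_eq F z u (by rw [hz]), hz]

end Pool.Agent.H.MP_c1fe20_lc
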